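import Pool.Agent.FTU.Stmts

set_option autoImplicit false

open MeasureTheory Complex ProbabilityTheory MvPolynomial

namespace Pool.Agent.FTU.H16

open Pool.Agent.Helper49_Pauli
open Pool.Agent.MBX
open Pool.Agent.Loc (γn PB)

theorem chain {σ : Type} (g : ℝ → σ → ℂ) (g' : σ → ℂ) (t₀ : ℝ)
    (hg : ∀ v, HasDerivAt (fun t => g t v) (g' v) t₀) (P : MvPolynomial σ ℂ) :
    HasDerivAt (fun t => MvPolynomial.eval (g t) P)
      (MvPolynomial.eval (g t₀) (mkDerivation ℂ (fun v => (C (g' v) : MvPolynomial σ ℂ)) P)) t₀ := by
  induction P using MvPolynomial.induction_on with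
  | C a =>
    rw [derivation_C, map_zero]
    simp only [eval_C]
    exact hasDerivAt_const _ _
  | add p q hp hq =>
    simp only [map_add]
    exact hp.add hq
  | mul_X p v hp =>
    simp only [map_mul, eval_X]
    rw [Derivation.leibniz, mkDerivation_X, map_add, smul_eq_mul, smul_eq_mul, map_mul, map_mul,
      eval_X, eval_C]
    have h1 := hp.mul (hg v)
    rw [add_comm] at h1
    have e : eval (g t₀) (X v) * eval (g t₀) ((mkDerivation ℂ fun v => (C (g' v) : MvPolynomial σ ℂ)) p) =
        eval (g t₀) ((mkDerivation ℂ fun v => (C (g' v) : MvPolynomial σ ℂ)) p) * g t₀ v := by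
      rw [eval_X, mul_comm]
    rw [eval_X] at e
    rw [e]
    exact h1

theorem sum_app {σ : Type} [DecidableEq σ] (T : Finset σ)
    (d : σ → Derivation ℂ (MvPolynomial σ ℂ) (MvPolynomial σ ℂ)) (P : MvPolynomial σ ℂ) :
    (∑ v ∈ T, d v) P = ∑ v ∈ T, d v P := by
  induction T using Finset.induction_on with
  | empty => rfl
  | insert a T ha ih => rw [Finset.sum_insert ha, Finset.sum_insert ha, Derivation.add_apply, ih]

theorem mk_eq {σ : Type} [DecidableEq σ] (g' : σ → ℂ) (P : MvPolynomial σ ℂ) :
    mkDerivation ℂ (fun v => (C (g' v) : MvPolynomial σ ℂ)) P =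
      ∑ v ∈ P.vars, C (g' v) * pderiv v P := by
  have h1 : mkDerivation ℂ (fun v => (C (g' v) : MvPolynomial σ ℂ)) P =
      (∑ v ∈ P.vars, (C (g' v) : MvPolynomial σ ℂ) • (pderiv v : Derivation ℂ _ _)) P := by
    apply derivation_eq_of_forall_mem_vars
    intro j hj
    rw [mkDerivation_X, sum_app]
    rw [Finset.sum_eq_single j]
    · rw [Derivation.smul_apply, pderiv_X_self, smul_eq_mul, mul_one]
    · intro v _ hv
      rw [Derivation.smul_apply, pderiv_X_of_ne hv.symm, smul_zero]
    · intro h
      exact absurd hj h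
  rw [h1, sum_app]
  rfl

/-- **EVY** -/
theorem evy : EvyStmt := by
  intro ι _ _ S et P y i s ze
  have hg : ∀ v, HasDerivAt (fun t : ℝ => pt et (S.jt et (Function.update y i t) s) ze v)
      ((S.jv i v s : ℝ) : ℂ) (y i) := by
    intro v
    cases v with
    | eta =>
      have h1 := hasDerivAt_const (y i) ((et : ℝ) : ℂ)
      have h2 : ((S.jv i Var.eta s : ℝ) : ℂ) = 0 := Complex.ofReal_zero
      rw [h2]
      exact h1
    | z =>
      have h1 := hasDerivAt_const (y i) ze
      have h2 : ((S.jv i Var.z s : ℝ) : ℂ) = 0 := Complex.ofReal_zero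
      rw [h2]
      exact h1
    | zb =>
      have h1 := hasDerivAt_const (y i) ((starRingEnd ℂ) ze)
      have h2 : ((S.jv i Var.zb s : ℝ) : ℂ) = 0 := Complex.ofReal_zero
      rw [h2]
      exact h1
    | jet c p q r =>
      have h1 : HasDerivAt (fun t : ℝ => S.jt et (Function.update y i t) s c p q r)
          (S.jm i c p q r s) (y i) := by
        have h2 : ∀ j : ι, HasDerivAt (fun t : ℝ => Function.update y i t j * S.jm j c p q r s)
            (if j = i then S.jm i c p q r s else 0) (y i) := by
          intro j
          by_cases hj : j = i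
          · subst hj
            rw [if_pos rfl]
            have h3 := (hasDerivAt_id (y j)).mul_const (S.jm j c p q r s)
            rw [one_mul] at h3
            refine h3.congr_of_eventuallyEq (Filter.Eventually.of_forall fun t => ?_)
            simp
          · rw [if_neg hj]
            have h3 := hasDerivAt_const (y i) (y j * S.jm j c p q r s)
            refine h3.congr_of_eventuallyEq (Filter.Eventually.of_forall fun t => ?_)
            simp [Function.update_of_ne hj]
        have h4 := HasDerivAt.fun_sum (u := Finset.univ) fun j _ => h2 j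
        rw [Finset.sum_ite_eq' Finset.univ i] at h4
        rw [if_pos (Finset.mem_univ i)] at h4
        exact h4.sub_const _
      exact h1.ofReal_comp
  have h1 := chain (fun t v => pt et (S.jt et (Function.update y i t) s) ze v)
    (fun v => ((S.jv i v s : ℝ) : ℂ)) (y i) hg P
  rw [mk_eq, map_sum] at h1
  have e : (fun v => pt et (S.jt et (Function.update y i (y i)) s) ze v) =
      pt et (S.jt et y s) ze := by rw [Function.update_eq_self]
  have h2 : (∑ v ∈ P.vars, eval (fun v => pt et (S.jt et (Function.update y i (y i)) s) ze v)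
      ((C ((S.jv i v s : ℝ) : ℂ) : RR) * pderiv v P)) =
      ∑ v ∈ P.vars, (S.jv i v s : ℂ) * ev et (S.jt et y s) ze (MvPolynomial.pderiv v P) := by
    apply Finset.sum_congr rfl
    intro v _
    rw [e, map_mul, eval_C]
    rfl
  rw [← h2]
  exact h1

end Pool.Agent.FTU.H16
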